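import Mathlib

open MeasureTheory Set
open scoped RealInnerProductSpace

namespace Pool.Agent.Results.MP_427d8c_co.BoxCounterexample

/-- Euclidean space of dimension `k`. -/
abbrev E (k : ℕ) := EuclideanSpace ℝ (Fin k)

variable {k : ℕ}

/-- The orbit `Γ w`. -/
def orb (Γ : Subgroup (E k ≃ₗᵢ[ℝ] E k)) (w : E k) : Set (E k) := {x | ∃ g ∈ Γ, g w = x}

/-- The orbit polytope `Q_w = conv (Γ w)`. Its vertices are the points of `Γ w`. -/
def Q (Γ : Subgroup (E k ≃ₗᵢ[ℝ] E k)) (w : E k) : Set (E k) := convexHull ℝ (orb Γ w)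

/-- The polytope `P` is full-dimensional. -/
def FullDim (P : Set (E k)) : Prop := affineSpan ℝ P = ⊤

/-- Two polytopes have the same combinatorial type: their face lattices (the faces, including the
empty face and the polytope itself, ordered by inclusion) are isomorphic. -/
def SameType (P P' : Set (E k)) : Prop :=
  Nonempty ({F : Set (E k) // IsExposed ℝ P F} ≃o {F : Set (E k) // IsExposed ℝ P' F})

/-- The class of `w`: all `w'` on the sphere of radius `r` for which `Q_{w'}` is `k`-dimensional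
and has the combinatorial type of `Q_w`. -/
def typeClass (Γ : Subgroup (E k ≃ₗᵢ[ℝ] E k)) (r : ℝ) (w : E k) : Set (E k) :=
  {w' | w' ∈ Metric.sphere (0 : E k) r ∧ FullDim (Q Γ w') ∧ SameType (Q Γ w) (Q Γ w')}

/-- The stratum of `w`: the connected component of its class containing `w`. -/
def stratum (Γ : Subgroup (E k ≃ₗᵢ[ℝ] E k)) (r : ℝ) (w : E k) : Set (E k) :=
  connectedComponentIn (typeClass Γ r w) w

/-- `M` is a smooth embedded submanifold of `ℝ^k`: near each of its points it is the zero set of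
a smooth submersion. (A subset of the sphere is a submanifold of the sphere if and only if it is
a submanifold of `ℝ^k`.) -/
def IsSubmanifold (M : Set (E k)) : Prop :=
  ∀ x ∈ M, ∃ (U : Set (E k)) (c : ℕ) (F : E k → E c), IsOpen U ∧ x ∈ U ∧
    ContDiffOn ℝ ⊤ F U ∧ (∀ y ∈ U, Function.Surjective (fderiv ℝ F y)) ∧
    M ∩ U = {y | y ∈ U ∧ F y = 0}

/-- The segment from `x` to `y` is an edge of the polytope `P`. -/
def IsEdge (P : Set (E k)) (x y : E k) : Prop := x ≠ y ∧ IsExposed ℝ P (segment ℝ x y)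

/-- The polar dual of `P`. -/
def polarDual (P : Set (E k)) : Set (E k) := {z | ∀ x ∈ P, ⟪x, z⟫ ≤ 1}

/-- The intersection of the facets of the polar dual of `P` that are dual to the vertices
`x` and `y` of `P`. -/
def dualFace (P : Set (E k)) (x y : E k) : Set (E k) :=
  {z | z ∈ polarDual P ∧ ⟪x, z⟫ = 1 ∧ ⟪y, z⟫ = 1}

open Classical in
/-- The number `-M_{xy}` for distinct vertices `x, y` of `P`: the `(k-2)`-dimensional (Hausdorff)
measure of `dualFace P x y` divided by `|x| |y| sin ∠(x, y)` if `x, y` are adjacent, and `0`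
otherwise. -/
noncomputable def weight (P : Set (E k)) (x y : E k) : ℝ :=
  if IsEdge P x y then
    (Measure.hausdorffMeasure ((k : ℝ) - 2) (dualFace P x y)).toReal /
      (‖x‖ * ‖y‖ * Real.sin (InnerProductGeometry.angle x y))
  else 0

/-- The random walk matrix `T(Q_w)`. -/
noncomputable def T (Γ : Subgroup (E k ≃ₗᵢ[ℝ] E k)) (w x y : E k) : ℝ :=
  weight (Q Γ w) x y / ∑ᶠ z ∈ orb Γ w, weight (Q Γ w) x z

/-- The second largest eigenvalue `λ₁` of the symmetric doubly stochastic matrix `T(Q_w)`, i.e.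
the largest value of `vᵀ T v` over all unit vectors `v`, indexed by the vertices of `Q_w`, that
are orthogonal to the all-ones vector. -/
noncomputable def lam (Γ : Subgroup (E k ≃ₗᵢ[ℝ] E k)) (w : E k) : ℝ :=
  sSup {ρ | ∃ v : E k → ℝ, ∑ᶠ x ∈ orb Γ w, v x = 0 ∧ ∑ᶠ x ∈ orb Γ w, v x ^ 2 = 1 ∧
    ρ = ∑ᶠ x ∈ orb Γ w, ∑ᶠ y ∈ orb Γ w, v x * T Γ w x y * v y}

/-! ### Linear equivalences -/

theorem isExposed_image (A : E k ≃L[ℝ] E k) {P F : Set (E k)} (h : IsExposed ℝ P F) :
    IsExposed ℝ (A '' P) (A '' F) := by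
  intro hne
  obtain ⟨l, hl⟩ := h (by simpa using hne)
  refine ⟨l.comp (A.symm : E k →L[ℝ] E k), ?_⟩
  ext z
  constructor
  · rintro ⟨x, hx, rfl⟩
    rw [hl] at hx
    refine ⟨⟨x, hx.1, rfl⟩, ?_⟩
    rintro _ ⟨y, hy, rfl⟩
    simpa using hx.2 y hy
  · rintro ⟨⟨x, hx, rfl⟩, h2⟩
    refine ⟨x, ?_, rfl⟩
    rw [hl]
    refine ⟨hx, fun y hy => ?_⟩
    simpa using h2 (A y) ⟨y, hy, rfl⟩

theorem isExposed_image_iff (A : E k ≃L[ℝ] E k) {P F : Set (E k)} :
    IsExposed ℝ (A '' P) (A '' F) ↔ IsExposed ℝ P F := by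
  refine ⟨fun h => ?_, isExposed_image A⟩
  have := isExposed_image A.symm h
  simpa [← Set.image_comp] using this

theorem sameType_image (A : E k ≃L[ℝ] E k) (P : Set (E k)) : SameType P (A '' P) := by
  refine ⟨{ toFun := fun F => ⟨A '' F.1, isExposed_image A F.2⟩
            invFun := fun F => ⟨A.symm '' F.1, by
              have := isExposed_image A.symm F.2
              simpa [← Set.image_comp] using this⟩
            left_inv := fun F => by
              apply Subtype.ext
              simp [← Set.image_comp]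
            right_inv := fun F => by
              apply Subtype.ext
              simp [← Set.image_comp]
            map_rel_iff' := ?_ }⟩
  intro F G
  change A '' F.1 ⊆ A '' G.1 ↔ F.1 ⊆ G.1
  exact Set.image_subset_image_iff A.injective

theorem isEdge_image_iff (A : E k ≃L[ℝ] E k) (P : Set (E k)) (x y : E k) :
    IsEdge (A '' P) (A x) (A y) ↔ IsEdge P x y := by
  unfold IsEdge
  have : segment ℝ (A x) (A y) = A '' segment ℝ x y := by
    have := image_segment ℝ (A : E k →ₗ[ℝ] E k).toAffineMap x y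
    simpa using this.symm
  rw [this, isExposed_image_iff, A.injective.ne_iff]


/-! ### The group of sign changes -/

/-- The group of all sign changes of the coordinates. -/
def G (k : ℕ) : Subgroup (E k ≃ₗᵢ[ℝ] E k) where
  carrier := {g | ∃ ε : Fin k → ℝ, (∀ i, ε i = 1 ∨ ε i = -1) ∧ ∀ x i, g x i = ε i * x i}
  one_mem' := ⟨fun _ => 1, fun _ => Or.inl rfl, fun x i => by simp⟩
  mul_mem' := by
    rintro g h ⟨ε, hε, hg⟩ ⟨δ, hδ, hh⟩
    refine ⟨fun i => ε i * δ i, fun i => ?_, fun x i => ?_⟩
    · rcases hε i with h1 | h1 <;> rcases hδ i with h2 | h2 <;> simp [h1, h2]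
    · change g (h x) i = _
      rw [hg, hh, mul_assoc]
  inv_mem' := by
    rintro g ⟨ε, hε, hg⟩
    refine ⟨ε, hε, fun x i => ?_⟩
    have h1 : g (g⁻¹ x) = x := by
      change (g * g⁻¹) x = x
      simp
    have h2 := hg (g⁻¹ x) i
    rw [h1] at h2
    rw [h2, ← mul_assoc]
    rcases hε i with h | h <;> simp [h]

/-- The sign change with signs given by `b`. -/
noncomputable def signMap (b : Fin k → Bool) : E k ≃ₗᵢ[ℝ] E k :=
  LinearIsometryEquiv.piLpCongrRight 2
    (fun i => if b i then LinearIsometryEquiv.refl ℝ ℝ else LinearIsometryEquiv.neg ℝ)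

theorem signMap_apply (b : Fin k → Bool) (x : E k) (i : Fin k) :
    signMap b x i = (if b i then 1 else -1) * x i := by
  unfold signMap
  rw [LinearIsometryEquiv.piLpCongrRight_apply]
  by_cases h : b i <;> simp [h]

theorem signMap_mem (b : Fin k → Bool) : signMap b ∈ G k :=
  ⟨fun i => if b i then 1 else -1, fun i => by by_cases h : b i <;> simp [h],
    fun x i => signMap_apply b x i⟩

theorem finite_G (k : ℕ) : Finite (G k) := by
  have : Function.Surjective (fun b : Fin k → Bool => (⟨signMap b, signMap_mem b⟩ : G k)) := by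
    rintro ⟨g, ε, hε, hg⟩
    refine ⟨fun i => decide (ε i = 1), ?_⟩
    apply Subtype.ext
    ext x i
    simp only
    rw [signMap_apply, hg]
    rcases hε i with h | h
    · simp [h]
    · rw [h]
      have : ¬ ((-1 : ℝ) = 1) := by norm_num
      simp [this]
  exact Finite.of_surjective _ this

theorem mem_orb {w x : E k} : x ∈ orb (G k) w ↔ ∀ i, x i = w i ∨ x i = - w i := by
  constructor
  · rintro ⟨g, ⟨ε, hε, hg⟩, rfl⟩ i
    rw [hg]
    rcases hε i with h | h <;> simp [h]
  · intro h
    refine ⟨signMap (fun i => decide (x i = w i)), signMap_mem _, ?_⟩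
    ext i
    rw [signMap_apply]
    by_cases h1 : x i = w i
    · simp [h1]
    · rw [if_neg (by simpa using h1)]
      linarith [(h i).resolve_left h1]

/-- The box with half side lengths `|w i|`. -/
theorem Q_subset {w x : E k} (hx : x ∈ Q (G k) w) (i : Fin k) : |x i| ≤ |w i| := by
  have hc : Convex ℝ {x : E k | |x i| ≤ |w i|} := by
    have : {x : E k | |x i| ≤ |w i|} = {x : E k | x i ≤ |w i|} ∩ {x : E k | -|w i| ≤ x i} := by
      ext x
      change |x i| ≤ |w i| ↔ x i ≤ |w i| ∧ -|w i| ≤ x i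
      rw [abs_le]
      tauto
    rw [this]
    exact (convex_halfSpace_le (EuclideanSpace.proj (𝕜 := ℝ) i).isLinear _).inter
      (convex_halfSpace_ge (EuclideanSpace.proj (𝕜 := ℝ) i).isLinear _)
  have : orb (G k) w ⊆ {x : E k | |x i| ≤ |w i|} := by
    intro y hy
    rcases mem_orb.1 hy i with h | h <;> simp [h]
  exact convexHull_min this hc hx

theorem orb_subset_Q (w : E k) : orb (G k) w ⊆ Q (G k) w := subset_convexHull _ _

/-- Flip the `i`-th coordinate. -/
noncomputable def flip (i : Fin k) (x : E k) : E k := WithLp.toLp 2 (Function.update x i (- x i))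

theorem flip_same (i : Fin k) (x : E k) : flip i x i = - x i := by simp [flip]

theorem flip_ne {i j : Fin k} (h : j ≠ i) (x : E k) : flip i x j = x j := by simp [flip, h]

theorem flip_mem {w x : E k} (i : Fin k) (hx : x ∈ orb (G k) w) : flip i x ∈ orb (G k) w := by
  rw [mem_orb] at hx ⊢
  intro j
  by_cases h : j = i
  · subst h
    rw [flip_same]
    rcases hx j with h | h
    · right; rw [h]
    · left; rw [h]; ring
  · rw [flip_ne h]
    exact hx j

theorem orb_ne_zero {w x : E k} (hw : ∀ i, w i ≠ 0) (hx : x ∈ orb (G k) w) (i : Fin k) :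
    x i ≠ 0 := by
  rcases mem_orb.1 hx i with h | h
  · rw [h]; exact hw i
  · rw [h]; exact neg_ne_zero.2 (hw i)

theorem orb_abs {w x : E k} (hx : x ∈ orb (G k) w) (i : Fin k) : |x i| = |w i| := by
  rcases mem_orb.1 hx i with h | h <;> simp [h]

/-- Two vertices that differ in exactly one coordinate are adjacent. -/
theorem isEdge_flip {w x : E k} (hw : ∀ i, w i ≠ 0) (hx : x ∈ orb (G k) w) (i : Fin k) :
    IsEdge (Q (G k) w) x (flip i x) := by
  have hx0 := orb_ne_zero hw hx
  constructor
  · intro h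
    have h1 := congrArg (fun z : E k => z i) h
    simp only [flip_same] at h1
    exact hx0 i (by linarith)
  intro _
  let l : E k →L[ℝ] ℝ := ∑ j ∈ Finset.univ.erase i, (SignType.sign (x j) : ℝ) • EuclideanSpace.proj j
  have hl : ∀ z : E k, l z = ∑ j ∈ Finset.univ.erase i, (SignType.sign (x j) : ℝ) * z j := by
    intro z
    simp [l]
  have hle : ∀ z ∈ Q (G k) w, ∀ j, (SignType.sign (x j) : ℝ) * z j ≤ |x j| := by
    intro z hz j
    have h1 := Q_subset hz j
    rw [← orb_abs hx j] at h1
    rcases lt_trichotomy (x j) 0 with h2 | h2 | h2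
    · rw [sign_neg h2]
      simp only [SignType.coe_neg, SignType.coe_one]
      have := (abs_le.1 h1).1
      rw [abs_of_neg h2] at *
      linarith
    · exact absurd h2 (hx0 j)
    · rw [sign_pos h2]
      simp only [SignType.coe_one]
      have := (abs_le.1 h1).2
      linarith
  have hmax : ∀ z : E k, z ∈ segment ℝ x (flip i x) → ∀ j ≠ i, z j = x j := by
    rintro z ⟨a, b, ha, hb, hab, rfl⟩ j hj
    simp only [PiLp.add_apply, PiLp.smul_apply, smul_eq_mul, flip_ne hj]
    rw [← add_mul, hab, one_mul]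
  have hsgn : ∀ j, (SignType.sign (x j) : ℝ) * x j = |x j| := fun j => sign_mul_self (x j)
  refine ⟨l, ?_⟩
  ext z
  constructor
  · intro hz
    refine ⟨?_, fun y hy => ?_⟩
    · exact (convex_convexHull ℝ _).segment_subset (orb_subset_Q w hx)
        (orb_subset_Q w (flip_mem i hx)) hz
    · rw [hl, hl]
      apply Finset.sum_le_sum
      intro j hj
      rw [hmax z hz j (Finset.ne_of_mem_erase hj), hsgn]
      exact hle y hy j
  · rintro ⟨hz, h⟩
    have h1 := h x (orb_subset_Q w hx)
    rw [hl, hl] at h1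
    have h2 : ∀ j ∈ Finset.univ.erase i, (SignType.sign (x j) : ℝ) * z j =
        (SignType.sign (x j) : ℝ) * x j := by
      intro j hj
      by_contra hne
      have hlt : (SignType.sign (x j) : ℝ) * z j < (SignType.sign (x j) : ℝ) * x j :=
        lt_of_le_of_ne (by rw [hsgn]; exact hle z hz j) hne
      have := Finset.sum_lt_sum (f := fun j => (SignType.sign (x j) : ℝ) * z j)
        (g := fun j => (SignType.sign (x j) : ℝ) * x j)
        (s := Finset.univ.erase i) (fun m _ => by rw [hsgn]; exact hle z hz m) ⟨j, hj, hlt⟩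
      linarith
    have h3 : ∀ j ≠ i, z j = x j := by
      intro j hj
      have := h2 j (Finset.mem_erase.2 ⟨hj, Finset.mem_univ _⟩)
      have hs : (SignType.sign (x j) : ℝ) ≠ 0 := by
        intro h0
        have h5 := hsgn j
        rw [h0, zero_mul] at h5
        exact hx0 j (abs_eq_zero.1 h5.symm)
      exact mul_left_cancel₀ hs this
    have h4 := Q_subset hz i
    rw [← orb_abs hx i] at h4
    refine ⟨(1 + z i / x i) / 2, (1 - z i / x i) / 2, ?_, ?_, by ring, ?_⟩
    · have : |z i / x i| ≤ 1 := by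
        rw [abs_div]
        exact div_le_one_of_le₀ h4 (abs_nonneg _)
      have := (abs_le.1 this).1
      linarith
    · have : |z i / x i| ≤ 1 := by
        rw [abs_div]
        exact div_le_one_of_le₀ h4 (abs_nonneg _)
      have := (abs_le.1 this).2
      linarith
    · ext j
      simp only [PiLp.add_apply, PiLp.smul_apply, smul_eq_mul]
      by_cases hj : j = i
      · subst hj
        rw [flip_same]
        have := hx0 j
        field_simp
        ring
      · rw [flip_ne hj, h3 j hj]
        ring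

/-- Adjacent vertices differ in exactly one coordinate. -/
theorem isEdge_iff {w x y : E k} (hw : ∀ i, w i ≠ 0) (hx : x ∈ orb (G k) w)
    (hy : y ∈ orb (G k) w) : IsEdge (Q (G k) w) x y ↔ ∃ i, y = flip i x := by
  constructor
  · rintro ⟨hne, hexp⟩
    obtain ⟨l, hl⟩ := hexp ⟨x, left_mem_segment ℝ x y⟩
    have hxy : ∀ j, y j = x j ∨ y j = - x j := by
      intro j
      rcases mem_orb.1 hx j with h1 | h1 <;> rcases mem_orb.1 hy j with h2 | h2 <;>
        simp [h1, h2]
    have hx0 := orb_ne_zero hw hx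
    obtain ⟨i, hi⟩ : ∃ i, y i = - x i := by
      by_contra hcon
      push Not at hcon
      exact hne (by ext j; exact ((hxy j).resolve_right (hcon j)).symm)
    refine ⟨i, ?_⟩
    by_contra hcon
    obtain ⟨j, hj⟩ : ∃ j, y j ≠ flip i x j := by
      by_contra h'
      push Not at h'
      exact hcon (by ext j; exact h' j)
    have hji : j ≠ i := by
      rintro rfl
      rw [flip_same] at hj
      exact hj hi
    rw [flip_ne hji] at hj
    have hyj : y j = - x j := (hxy j).resolve_left hj
    have hxm : x ∈ {x | x ∈ Q (G k) w ∧ ∀ y ∈ Q (G k) w, l y ≤ l x} := by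
      rw [← hl]; exact left_mem_segment ℝ x y
    have hym : y ∈ {x | x ∈ Q (G k) w ∧ ∀ y ∈ Q (G k) w, l y ≤ l x} := by
      rw [← hl]; exact right_mem_segment ℝ x y
    have hsum : flip i x + flip i y = x + y := by
      ext m
      simp only [PiLp.add_apply]
      by_cases hm : m = i
      · subst hm
        rw [flip_same, flip_same, hi]; ring
      · rw [flip_ne hm, flip_ne hm]
    have e1 := congrArg l hsum
    rw [map_add, map_add] at e1
    have e2 := hxm.2 _ (orb_subset_Q w (flip_mem i hx))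
    have e3 := hxm.2 _ (orb_subset_Q w (flip_mem i hy))
    have e4 := hym.2 _ hxm.1
    have e5 := hxm.2 _ hym.1
    have hmem : flip i x ∈ segment ℝ x y := by
      rw [hl]
      refine ⟨orb_subset_Q w (flip_mem i hx), fun z hz => ?_⟩
      have := hxm.2 z hz
      linarith
    obtain ⟨a, b, ha, hb, hab, h⟩ := hmem
    have c1 := congrArg (fun z : E k => z j) h
    have c2 := congrArg (fun z : E k => z i) h
    simp only [PiLp.add_apply, PiLp.smul_apply, smul_eq_mul, flip_ne hji, flip_same, hyj, hi]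
      at c1 c2
    have d1 : a - b = 1 := by
      have := hx0 j
      apply mul_right_cancel₀ this
      linarith
    have d2 : a - b = -1 := by
      have := hx0 i
      apply mul_right_cancel₀ this
      linarith
    linarith
  · rintro ⟨i, rfl⟩
    exact isEdge_flip hw hx i


/-! ### The weights in dimension three -/

theorem sum_three (i : Fin 3) (f : Fin 3 → ℝ) : ∑ j, f j = f i + f (i + 1) + f (i + 2) := by
  fin_cases i <;> simp [Fin.sum_univ_three] <;> ring

theorem ne_one (i : Fin 3) : i + 1 ≠ i := by fin_cases i <;> decide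
theorem ne_two (i : Fin 3) : i + 2 ≠ i := by fin_cases i <;> decide
theorem ne_onetwo (i : Fin 3) : i + 1 ≠ i + 2 := by fin_cases i <;> decide
theorem three_cases (i j : Fin 3) : j = i ∨ j = i + 1 ∨ j = i + 2 := by
  fin_cases i <;> fin_cases j <;> decide

theorem inner_eq (x y : E 3) (i : Fin 3) :
    ⟪x, y⟫ = x i * y i + x (i + 1) * y (i + 1) + x (i + 2) * y (i + 2) := by
  rw [← sum_three i (fun j => x j * y j)]
  simp [PiLp.inner_apply, mul_comm]

theorem mem_polar {w z : E 3} : z ∈ polarDual (Q (G 3) w) ↔ ∀ x ∈ orb (G 3) w, ⟪x, z⟫ ≤ 1 := by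
  constructor
  · intro h x hx
    exact h x (orb_subset_Q w hx)
  · intro h x hx
    have hc : Convex ℝ {x : E 3 | ⟪x, z⟫ ≤ 1} := by
      have : {x : E 3 | ⟪x, z⟫ ≤ 1} = {x : E 3 | ⟪z, x⟫ ≤ 1} := by
        ext x
        change ⟪x, z⟫ ≤ 1 ↔ ⟪z, x⟫ ≤ 1
        rw [real_inner_comm]
      rw [this]
      exact convex_halfSpace_le (innerSL ℝ z).isLinear _
    exact convexHull_min (fun y hy => h y hy) hc hx

/-- The point `e_j / x_j`. -/
noncomputable def pt (j : Fin 3) (x : E 3) : E 3 := EuclideanSpace.single j (1 / x j)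

theorem pt_same (j : Fin 3) (x : E 3) : pt j x j = 1 / x j := by simp [pt]

theorem pt_ne {i j : Fin 3} (h : i ≠ j) (x : E 3) : pt j x i = 0 := by simp [pt, h]

theorem dualFace_flip {w x : E 3} (hw : ∀ i, w i ≠ 0) (hx : x ∈ orb (G 3) w) (i : Fin 3) :
    dualFace (Q (G 3) w) x (flip i x) = segment ℝ (pt (i + 1) x) (pt (i + 2) x) := by
  have hx0 := orb_ne_zero hw hx
  have n1 := ne_one i
  have n2 := ne_two i
  have n3 := ne_onetwo i
  ext z
  constructor
  · rintro ⟨hz, h1, h2⟩
    rw [mem_polar] at hz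
    rw [inner_eq _ _ i] at h1 h2
    rw [flip_same, flip_ne n1, flip_ne n2] at h2
    have hz0 : z i = 0 := by
      have : x i * z i = 0 := by linarith
      exact (mul_eq_zero.1 this).resolve_left (hx0 i)
    have h3 := hz _ (flip_mem (i + 1) hx)
    have h4 := hz _ (flip_mem (i + 2) hx)
    rw [inner_eq _ _ i] at h3 h4
    rw [flip_same, flip_ne n1.symm, flip_ne n3.symm, hz0] at h3
    rw [flip_same, flip_ne n2.symm, flip_ne n3, hz0] at h4
    rw [hz0] at h1
    refine ⟨x (i + 1) * z (i + 1), x (i + 2) * z (i + 2), by linarith, by linarith, by linarith, ?_⟩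
    ext j
    simp only [PiLp.add_apply, PiLp.smul_apply, smul_eq_mul]
    rcases three_cases i j with rfl | rfl | rfl
    · rw [pt_ne n1.symm, pt_ne n2.symm, hz0]; ring
    · rw [pt_same, pt_ne n3]
      have := hx0 (i + 1)
      field_simp
      ring
    · rw [pt_same, pt_ne n3.symm]
      have := hx0 (i + 2)
      field_simp
      ring
  · rintro ⟨a, b, ha, hb, hab, rfl⟩
    have e0 : (a • pt (i + 1) x + b • pt (i + 2) x) i = 0 := by
      simp only [PiLp.add_apply, PiLp.smul_apply, smul_eq_mul]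
      rw [pt_ne n1.symm, pt_ne n2.symm]; ring
    have e1 : (a • pt (i + 1) x + b • pt (i + 2) x) (i + 1) = a / x (i + 1) := by
      simp only [PiLp.add_apply, PiLp.smul_apply, smul_eq_mul]
      rw [pt_same, pt_ne n3]; ring
    have e2 : (a • pt (i + 1) x + b • pt (i + 2) x) (i + 2) = b / x (i + 2) := by
      simp only [PiLp.add_apply, PiLp.smul_apply, smul_eq_mul]
      rw [pt_same, pt_ne n3.symm]; ring
    refine ⟨?_, ?_, ?_⟩
    · rw [mem_polar]
      intro y hy
      rw [inner_eq _ _ i, e0, e1, e2]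
      have hy1 : |y (i + 1)| = |x (i + 1)| := by rw [orb_abs hy, orb_abs hx]
      have hy2 : |y (i + 2)| = |x (i + 2)| := by rw [orb_abs hy, orb_abs hx]
      have q1 : y (i + 1) * (a / x (i + 1)) ≤ a := by
        calc y (i + 1) * (a / x (i + 1)) ≤ |y (i + 1) * (a / x (i + 1))| := le_abs_self _
          _ = a := by
            rw [abs_mul, abs_div, hy1, abs_of_nonneg ha]
            have := abs_ne_zero.2 (hx0 (i + 1))
            field_simp
      have q2 : y (i + 2) * (b / x (i + 2)) ≤ b := by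
        calc y (i + 2) * (b / x (i + 2)) ≤ |y (i + 2) * (b / x (i + 2))| := le_abs_self _
          _ = b := by
            rw [abs_mul, abs_div, hy2, abs_of_nonneg hb]
            have := abs_ne_zero.2 (hx0 (i + 2))
            field_simp
      linarith
    · rw [inner_eq _ _ i, e0, e1, e2]
      have := hx0 (i + 1)
      have := hx0 (i + 2)
      field_simp
      linarith
    · rw [inner_eq _ _ i, e0, e1, e2, flip_ne n1, flip_ne n2]
      have := hx0 (i + 1)
      have := hx0 (i + 2)
      field_simp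
      linarith

theorem norm_sq_eq (x : E 3) (i : Fin 3) :
    ‖x‖ ^ 2 = x i ^ 2 + x (i + 1) ^ 2 + x (i + 2) ^ 2 := by
  rw [← real_inner_self_eq_norm_sq, inner_eq x x i]; ring

theorem dist_pt {x : E 3} (hx0 : ∀ i, x i ≠ 0) (i : Fin 3) :
    dist (pt (i + 1) x) (pt (i + 2) x) =
      √(x (i + 1) ^ 2 + x (i + 2) ^ 2) / |x (i + 1) * x (i + 2)| := by
  have n1 := ne_one i
  have n2 := ne_two i
  have n3 := ne_onetwo i
  have h1 := hx0 (i + 1)
  have h2 := hx0 (i + 2)
  rw [dist_eq_norm]
  have : ‖pt (i + 1) x - pt (i + 2) x‖ ^ 2 =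
      (√(x (i + 1) ^ 2 + x (i + 2) ^ 2) / |x (i + 1) * x (i + 2)|) ^ 2 := by
    rw [norm_sq_eq _ i]
    simp only [PiLp.sub_apply]
    rw [pt_ne n1.symm, pt_ne n2.symm, pt_same, pt_ne n3, pt_ne n3.symm, pt_same, div_pow,
      Real.sq_sqrt (by positivity), sq_abs]
    field_simp
    ring
  exact (pow_left_inj₀ (norm_nonneg _) (by positivity) two_ne_zero).1 this

theorem weight_edge {w x y : E 3} (hw : ∀ i, w i ≠ 0) (hx : x ∈ orb (G 3) w)
    (hy : y ∈ orb (G 3) w) (he : IsEdge (Q (G 3) w) x y) :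
    weight (Q (G 3) w) x y = 1 / (2 * |w 0 * w 1 * w 2|) := by
  obtain ⟨i, rfl⟩ := (isEdge_iff hw hx hy).1 he
  have hx0 := orb_ne_zero hw hx
  have n1 := ne_one i
  have n2 := ne_two i
  have n3 := ne_onetwo i
  have h0 := hx0 i
  have h1 := hx0 (i + 1)
  have h2 := hx0 (i + 2)
  unfold weight
  rw [if_pos he, dualFace_flip hw hx i]
  have hk : ((3 : ℕ) : ℝ) - 2 = 1 := by norm_num
  rw [hk, hausdorffMeasure_segment, edist_dist, ENNReal.toReal_ofReal dist_nonneg, dist_pt hx0 i]
  have hsin : ‖x‖ * ‖flip i x‖ * Real.sin (InnerProductGeometry.angle x (flip i x)) =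
      2 * |x i| * √(x (i + 1) ^ 2 + x (i + 2) ^ 2) := by
    rw [mul_comm, InnerProductGeometry.sin_angle_mul_norm_mul_norm]
    have e : ⟪x, x⟫ * ⟪flip i x, flip i x⟫ - ⟪x, flip i x⟫ * ⟪x, flip i x⟫ =
        (2 * |x i|) ^ 2 * (x (i + 1) ^ 2 + x (i + 2) ^ 2) := by
      rw [inner_eq x x i, inner_eq (flip i x) (flip i x) i, inner_eq x (flip i x) i, flip_same,
        flip_ne n1, flip_ne n2, mul_pow, sq_abs]
      ring
    rw [e, Real.sqrt_mul (by positivity), Real.sqrt_sq (by positivity)]
  rw [hsin]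
  have hprod : |w 0 * w 1 * w 2| = |x i| * |x (i + 1)| * |x (i + 2)| := by
    rw [orb_abs hx, orb_abs hx, orb_abs hx, ← abs_mul, ← abs_mul]
    congr 1
    fin_cases i <;> simp <;> ring
  rw [hprod, abs_mul]
  have hs : √(x (i + 1) ^ 2 + x (i + 2) ^ 2) ≠ 0 := by
    rw [Real.sqrt_ne_zero']
    positivity
  have a0 := abs_ne_zero.2 h0
  have a1 := abs_ne_zero.2 h1
  have a2 := abs_ne_zero.2 h2
  field_simp


/-! ### All three-dimensional boxes are linearly equivalent -/

/-- The diagonal linear map with diagonal `c`. -/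
noncomputable def scale (c : Fin k → ℝ) (hc : ∀ i, c i ≠ 0) : E k ≃L[ℝ] E k :=
  LinearEquiv.toContinuousLinearEquiv
    { toFun := fun x => WithLp.toLp 2 (fun i => c i * x i)
      invFun := fun x => WithLp.toLp 2 (fun i => (c i)⁻¹ * x i)
      map_add' := fun x y => by ext i; simp [mul_add]
      map_smul' := fun a x => by ext i; simp; ring
      left_inv := fun x => by ext i; have := hc i; simp; field_simp
      right_inv := fun x => by ext i; have := hc i; simp; field_simp }

theorem scale_apply (c : Fin k → ℝ) (hc : ∀ i, c i ≠ 0) (x : E k) (i : Fin k) :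
    scale c hc x i = c i * x i := rfl

theorem exists_scale {w w' : E k} (hw : ∀ i, w i ≠ 0) (hw' : ∀ i, w' i ≠ 0) :
    ∃ A : E k ≃L[ℝ] E k, A '' orb (G k) w = orb (G k) w' := by
  have hc : ∀ i, w' i / w i ≠ 0 := fun i => div_ne_zero (hw' i) (hw i)
  refine ⟨scale (fun i => w' i / w i) hc, ?_⟩
  ext y
  constructor
  · rintro ⟨x, hx, rfl⟩
    rw [mem_orb] at hx ⊢
    intro i
    rw [scale_apply]
    have := hw i
    rcases hx i with h | h
    · left; rw [h]; field_simp
    · right; rw [h]; field_simp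
  · intro hy
    rw [mem_orb] at hy
    refine ⟨WithLp.toLp 2 (fun i => w i / w' i * y i), ?_, ?_⟩
    · rw [mem_orb]
      intro i
      have := hw' i
      rcases hy i with h | h
      · left; simp only [h]; field_simp
      · right; simp only [h]; field_simp
    · ext i
      rw [scale_apply]
      have := hw' i
      have := hw i
      simp only
      field_simp

theorem image_Q {w w' : E k} (A : E k ≃L[ℝ] E k) (h : A '' orb (G k) w = orb (G k) w') :
    A '' Q (G k) w = Q (G k) w' := by
  unfold Q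
  rw [← h]
  exact (A : E k →ₗ[ℝ] E k).image_convexHull _

theorem finite_orb (w : E k) : (orb (G k) w).Finite := by
  have := finite_G k
  have : orb (G k) w = Set.range (fun g : G k => g.1 w) := by
    ext x
    constructor
    · rintro ⟨g, hg, rfl⟩
      exact ⟨⟨g, hg⟩, rfl⟩
    · rintro ⟨g, rfl⟩
      exact ⟨g.1, g.2, rfl⟩
  rw [this]
  exact Set.finite_range _

open Classical in
/-- The indicator of adjacency. -/
noncomputable def ind (P : Set (E k)) (x y : E k) : ℝ := if IsEdge P x y then 1 else 0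

theorem weight_eq {w x y : E 3} (hw : ∀ i, w i ≠ 0) (hx : x ∈ orb (G 3) w)
    (hy : y ∈ orb (G 3) w) :
    weight (Q (G 3) w) x y = 1 / (2 * |w 0 * w 1 * w 2|) * ind (Q (G 3) w) x y := by
  unfold ind
  split_ifs with h
  · rw [weight_edge hw hx hy h, mul_one]
  · unfold weight
    rw [if_neg h, mul_zero]

theorem T_eq {w x y : E 3} (hw : ∀ i, w i ≠ 0) (hx : x ∈ orb (G 3) w)
    (hy : y ∈ orb (G 3) w) :
    T (G 3) w x y = ind (Q (G 3) w) x y / ∑ᶠ z ∈ orb (G 3) w, ind (Q (G 3) w) x z := by
  unfold T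
  have h1 : ∑ᶠ z ∈ orb (G 3) w, weight (Q (G 3) w) x z =
      1 / (2 * |w 0 * w 1 * w 2|) * ∑ᶠ z ∈ orb (G 3) w, ind (Q (G 3) w) x z := by
    rw [mul_finsum_mem]
    exact finsum_mem_congr rfl (fun z hz => weight_eq hw hx hz)
  rw [h1, weight_eq hw hx hy]
  apply mul_div_mul_left
  have : w 0 * w 1 * w 2 ≠ 0 := mul_ne_zero (mul_ne_zero (hw 0) (hw 1)) (hw 2)
  have := abs_ne_zero.2 this
  positivity

theorem T_image {w w' x y : E 3} (hw : ∀ i, w i ≠ 0) (hw' : ∀ i, w' i ≠ 0)
    (A : E 3 ≃L[ℝ] E 3) (h : A '' orb (G 3) w = orb (G 3) w') (hx : x ∈ orb (G 3) w)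
    (hy : y ∈ orb (G 3) w) : T (G 3) w' (A x) (A y) = T (G 3) w x y := by
  have hAx : A x ∈ orb (G 3) w' := h ▸ ⟨x, hx, rfl⟩
  have hAy : A y ∈ orb (G 3) w' := h ▸ ⟨y, hy, rfl⟩
  have hind : ∀ x y, ind (Q (G 3) w') (A x) (A y) = ind (Q (G 3) w) x y := by
    intro x y
    unfold ind
    rw [← image_Q A h, isEdge_image_iff]
  rw [T_eq hw hx hy, T_eq hw' hAx hAy, hind]
  congr 1
  rw [← h, finsum_mem_image A.injective.injOn]
  exact finsum_mem_congr rfl (fun z _ => hind x z)

theorem lam_set_subset {w w' : E 3} (hw : ∀ i, w i ≠ 0) (hw' : ∀ i, w' i ≠ 0) :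
    {ρ | ∃ v : E 3 → ℝ, ∑ᶠ x ∈ orb (G 3) w, v x = 0 ∧ ∑ᶠ x ∈ orb (G 3) w, v x ^ 2 = 1 ∧
      ρ = ∑ᶠ x ∈ orb (G 3) w, ∑ᶠ y ∈ orb (G 3) w, v x * T (G 3) w x y * v y} ⊆
    {ρ | ∃ v : E 3 → ℝ, ∑ᶠ x ∈ orb (G 3) w', v x = 0 ∧ ∑ᶠ x ∈ orb (G 3) w', v x ^ 2 = 1 ∧
      ρ = ∑ᶠ x ∈ orb (G 3) w', ∑ᶠ y ∈ orb (G 3) w', v x * T (G 3) w' x y * v y} := by
  obtain ⟨A, h⟩ := exists_scale hw hw'
  rintro ρ ⟨v, h1, h2, h3⟩
  refine ⟨fun x => v (A.symm x), ?_, ?_, ?_⟩
  · rw [← h, finsum_mem_image A.injective.injOn]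
    simpa using h1
  · rw [← h, finsum_mem_image A.injective.injOn]
    simpa using h2
  · rw [h3, ← h, finsum_mem_image A.injective.injOn]
    apply finsum_mem_congr rfl
    intro x hx
    rw [finsum_mem_image A.injective.injOn]
    apply finsum_mem_congr rfl
    intro y hy
    rw [T_image hw hw' A h hx hy]
    simp

theorem lam_eq {w w' : E 3} (hw : ∀ i, w i ≠ 0) (hw' : ∀ i, w' i ≠ 0) :
    lam (G 3) w = lam (G 3) w' := by
  unfold lam
  rw [Subset.antisymm (lam_set_subset hw hw') (lam_set_subset hw' hw)]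

/-! ### The strata -/

theorem fullDim_iff (w : E k) : FullDim (Q (G k) w) ↔ ∀ i, w i ≠ 0 := by
  constructor
  · intro h i hi
    let p : E k →ₗ[ℝ] ℝ := (EuclideanSpace.proj i : E k →L[ℝ] ℝ).toLinearMap
    have hp : ∀ x : E k, p x = x i := fun x => rfl
    have hsub : Q (G k) w ⊆ (LinearMap.ker p : Set (E k)) := by
      intro x hx
      have := Q_subset hx i
      rw [hi, abs_zero] at this
      have h0 : x i = 0 := abs_nonpos_iff.1 this
      exact LinearMap.mem_ker.2 h0
    have h1 : affineSpan ℝ (Q (G k) w) ≤ (LinearMap.ker p).toAffineSubspace :=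
      affineSpan_le.2 hsub
    rw [h] at h1
    have h2 := h1 (AffineSubspace.mem_top ℝ (E k) (EuclideanSpace.single i (1 : ℝ)))
    have h3 : p (EuclideanSpace.single i (1 : ℝ)) = 0 := h2
    rw [hp] at h3
    simp at h3
  · intro hw
    have hne : (Q (G k) w).Nonempty :=
      ⟨w, orb_subset_Q w (mem_orb.2 fun i => Or.inl rfl)⟩
    unfold FullDim
    rw [AffineSubspace.affineSpan_eq_top_iff_vectorSpan_eq_top_of_nonempty ℝ (E k) (E k) hne]
    rw [eq_top_iff]
    have hs : ∀ i, EuclideanSpace.single i (1 : ℝ) ∈ vectorSpan ℝ (Q (G k) w) := by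
      intro i
      have hww : w ∈ orb (G k) w := mem_orb.2 fun i => Or.inl rfl
      have h1 := vsub_mem_vectorSpan ℝ (orb_subset_Q w hww) (orb_subset_Q w (flip_mem i hww))
      have h2 : EuclideanSpace.single i (1 : ℝ) = (1 / (2 * w i)) • (w -ᵥ flip i w) := by
        ext j
        by_cases hj : j = i
        · subst hj
          have := hw j
          simp [flip_same]
          field_simp
          ring
        · simp [hj, flip_ne hj]
      rw [h2]
      exact Submodule.smul_mem _ _ h1
    intro x _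
    have : x = ∑ i, x i • EuclideanSpace.single i (1 : ℝ) := by
      ext j
      simp [Finset.sum_apply, Pi.single_apply]
    rw [this]
    exact Submodule.sum_mem _ fun i _ => Submodule.smul_mem _ _ (hs i)

theorem typeClass_eq {w : E k} (hw : ∀ i, w i ≠ 0) (r : ℝ) :
    typeClass (G k) r w = {w' | w' ∈ Metric.sphere (0 : E k) r ∧ ∀ i, w' i ≠ 0} := by
  ext w'
  constructor
  · rintro ⟨h1, h2, -⟩
    exact ⟨h1, (fullDim_iff w').1 h2⟩
  · rintro ⟨h1, h2⟩
    refine ⟨h1, (fullDim_iff w').2 h2, ?_⟩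
    obtain ⟨A, hA⟩ := exists_scale hw h2
    rw [← image_Q A hA]
    exact sameType_image A _

/-- The open orthant of `w`. -/
def orthant (w : E k) : Set (E k) := {y | ∀ i, 0 < w i * y i}

theorem isOpen_orthant (w : E k) : IsOpen (orthant w) := by
  have : orthant w = ⋂ i, {y : E k | 0 < w i * y i} := by
    ext y
    simp [orthant]
  rw [this]
  refine isOpen_iInter_of_finite fun i => ?_
  exact isOpen_lt continuous_const (continuous_const.mul (EuclideanSpace.proj (𝕜 := ℝ) i).continuous)

theorem convex_orthant (w : E k) : Convex ℝ (orthant w) := by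
  intro x hx y hy a b ha hb hab i
  simp only [PiLp.add_apply, PiLp.smul_apply, smul_eq_mul]
  have h1 := hx i
  have h2 := hy i
  have : w i * (a * x i + b * y i) = a * (w i * x i) + b * (w i * y i) := by ring
  rw [this]
  rcases ha.eq_or_lt with h | h
  · subst h
    rw [zero_add] at hab
    subst hab
    simpa using h2
  · have := mul_pos h h1
    have := mul_nonneg hb h2.le
    linarith

theorem stratum_eq {w : E k} [NeZero k] (hw : ∀ i, w i ≠ 0) {r : ℝ} (hr : 0 < r)
    (hwr : w ∈ Metric.sphere (0 : E k) r) :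
    stratum (G k) r w = Metric.sphere (0 : E k) r ∩ orthant w := by
  have hwc : w ∈ typeClass (G k) r w := by
    rw [typeClass_eq hw]; exact ⟨hwr, hw⟩
  unfold stratum
  apply Subset.antisymm
  · intro y hy
    have hyc := connectedComponentIn_subset _ _ hy
    refine ⟨hyc.1, fun i => ?_⟩
    by_contra hcon
    have hcont : ContinuousOn (fun y : E k => w i * y i)
        (connectedComponentIn (typeClass (G k) r w) w) :=
      (continuous_const.mul (EuclideanSpace.proj (𝕜 := ℝ) i).continuous).continuousOn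
    have hpre := isPreconnected_connectedComponentIn (x := w) (F := typeClass (G k) r w)
    have hw1 : w ∈ connectedComponentIn (typeClass (G k) r w) w := mem_connectedComponentIn hwc
    have hpos : 0 ≤ w i * w i := mul_self_nonneg _
    obtain ⟨z, hz, hz0⟩ := hpre.intermediate_value hy hw1 hcont ⟨not_lt.1 hcon, hpos⟩
    have hzc := connectedComponentIn_subset _ _ hz
    rw [typeClass_eq hw] at hzc
    rcases mul_eq_zero.1 hz0 with h | h
    · exact hw i h
    · exact hzc.2 i h
  · have hpre : IsPreconnected (Metric.sphere (0 : E k) r ∩ orthant w) := by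
      have himg : (fun y : E k => (r / ‖y‖) • y) '' orthant w =
          Metric.sphere (0 : E k) r ∩ orthant w := by
        ext z
        constructor
        · rintro ⟨y, hy, rfl⟩
          have hy0 : y ≠ 0 := by
            rintro rfl
            have := hy 0
            simp at this
          have hn : 0 < ‖y‖ := norm_pos_iff.2 hy0
          refine ⟨?_, fun i => ?_⟩
          · rw [mem_sphere_zero_iff_norm, norm_smul, Real.norm_eq_abs,
              abs_of_pos (div_pos hr hn)]
            field_simp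
          · simp only [PiLp.smul_apply, smul_eq_mul]
            have := mul_pos (div_pos hr hn) (hy i)
            linarith
        · rintro ⟨h1, h2⟩
          refine ⟨z, h2, ?_⟩
          rw [mem_sphere_zero_iff_norm] at h1
          simp only
          rw [h1, div_self hr.ne', one_smul]
      rw [← himg]
      apply (convex_orthant w).isPreconnected.image
      refine ContinuousOn.smul (f := fun y : E k => r / ‖y‖) (g := fun y : E k => y) ?_
        continuousOn_id
      apply ContinuousOn.div continuousOn_const continuous_norm.continuousOn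
      intro y hy
      have hy0 : y ≠ 0 := by
        rintro rfl
        have := hy 0
        simp at this
      exact norm_ne_zero_iff.2 hy0
    apply hpre.subset_connectedComponentIn
    · exact ⟨hwr, fun i => mul_self_pos.2 (hw i)⟩
    · rw [typeClass_eq hw]
      rintro y ⟨h1, h2⟩
      refine ⟨h1, fun i hi => ?_⟩
      have := h2 i
      rw [hi] at this
      simp at this

theorem isSubmanifold_sphere_inter {U : Set (E k)} (hU : IsOpen U) (h0 : ∀ y ∈ U, y ≠ 0) (r : ℝ)
    (hr : 0 < r) : IsSubmanifold (Metric.sphere (0 : E k) r ∩ U) := by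
  rintro x ⟨_, hxU⟩
  let e : E 1 := EuclideanSpace.single 0 (1 : ℝ)
  have hd : ∀ y : E k, HasFDerivAt (fun y : E k => (‖y‖ ^ 2 - r ^ 2) • e)
      ((2 • innerSL ℝ y).smulRight e) y := by
    intro y
    have h1 : HasFDerivAt (fun y : E k => ‖y‖ ^ 2 - r ^ 2) (2 • innerSL ℝ y) y := by
      have := (hasStrictFDerivAt_norm_sq y).hasFDerivAt
      exact this.sub_const (r ^ 2)
    exact h1.smul_const e
  refine ⟨U, 1, fun y => (‖y‖ ^ 2 - r ^ 2) • e, hU, hxU, ?_, ?_, ?_⟩
  · apply ContDiff.contDiffOn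
    exact ((contDiff_norm_sq ℝ).sub contDiff_const).smul contDiff_const
  · intro y hy z
    rw [(hd y).fderiv]
    have hy0 := h0 y hy
    have hn : ‖y‖ ^ 2 ≠ 0 := by
      have := norm_pos_iff.2 hy0
      positivity
    refine ⟨(z 0 / (2 * ‖y‖ ^ 2)) • y, ?_⟩
    ext i
    fin_cases i
    simp [e]
    field_simp
  · ext y
    constructor
    · rintro ⟨⟨h1, h2⟩, h3⟩
      refine ⟨h3, ?_⟩
      rw [mem_sphere_zero_iff_norm] at h1
      simp [h1]
    · rintro ⟨h1, h2⟩
      refine ⟨⟨?_, h1⟩, h1⟩
      have h3 := congrArg (fun z : E 1 => z 0) h2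
      simp [e] at h3
      rw [mem_sphere_zero_iff_norm]
      have : ‖y‖ ^ 2 = r ^ 2 := by linarith
      exact (pow_left_inj₀ (norm_nonneg _) hr.le two_ne_zero).1 this

/-- **The conjecture fails.** For every `r > 0` there is a finite group `Γ ⊂ O(3)` such that
(i) all strata are submanifolds, (ii) on every stratum `λ₁` is continuous and attains its minimum,
and some stratum has a minimiser `w` of `λ₁` such that `Q_w` has two edges of different lengths. -/
theorem result (r : ℝ) (hr : 0 < r) :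
    ∃ Γ : Subgroup (E 3 ≃ₗᵢ[ℝ] E 3), Finite Γ ∧
      (∀ w ∈ Metric.sphere (0 : E 3) r, FullDim (Q Γ w) → IsSubmanifold (stratum Γ r w)) ∧
      (∀ w ∈ Metric.sphere (0 : E 3) r, FullDim (Q Γ w) →
        ContinuousOn (lam Γ) (stratum Γ r w) ∧
        ∃ w₀ ∈ stratum Γ r w, ∀ w' ∈ stratum Γ r w, lam Γ w₀ ≤ lam Γ w') ∧
      ∃ w ∈ Metric.sphere (0 : E 3) r, FullDim (Q Γ w) ∧
        (∀ w' ∈ stratum Γ r w, lam Γ w ≤ lam Γ w') ∧
        ∃ x ∈ orb Γ w, ∃ y ∈ orb Γ w, ∃ x' ∈ orb Γ w, ∃ y' ∈ orb Γ w,
          IsEdge (Q Γ w) x y ∧ IsEdge (Q Γ w) x' y' ∧ dist x y ≠ dist x' y' := by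
  have hconst : ∀ w ∈ Metric.sphere (0 : E 3) r, FullDim (Q (G 3) w) →
      ∀ w' ∈ stratum (G 3) r w, lam (G 3) w' = lam (G 3) w := by
    intro w hwr hf w' hw'
    rw [fullDim_iff] at hf
    have h1 := connectedComponentIn_subset _ _ hw'
    rw [typeClass_eq hf] at h1
    exact lam_eq h1.2 hf
  have hself : ∀ w ∈ Metric.sphere (0 : E 3) r, FullDim (Q (G 3) w) →
      w ∈ stratum (G 3) r w := by
    intro w hwr hf
    rw [fullDim_iff] at hf
    apply mem_connectedComponentIn
    rw [typeClass_eq hf]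
    exact ⟨hwr, hf⟩
  refine ⟨G 3, finite_G 3, ?_, ?_, ?_⟩
  · intro w hwr hf
    rw [fullDim_iff] at hf
    rw [stratum_eq hf hr hwr]
    apply isSubmanifold_sphere_inter (isOpen_orthant w) _ r hr
    rintro y hy rfl
    have := hy 0
    simp at this
  · intro w hwr hf
    refine ⟨?_, w, hself w hwr hf, fun w' hw' => (hconst w hwr hf w' hw').ge⟩
    exact continuousOn_const.congr (fun w' hw' => hconst w hwr hf w' hw')
  · let w : E 3 := !₂[2 * r / 3, 2 * r / 3, r / 3]
    have hw0 : w 0 = 2 * r / 3 := rfl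
    have hw1 : w 1 = 2 * r / 3 := rfl
    have hw2 : w 2 = r / 3 := rfl
    have hwn : ∀ i, w i ≠ 0 := by
      intro i
      fin_cases i
      · change w 0 ≠ 0
        rw [hw0]; positivity
      · change w 1 ≠ 0
        rw [hw1]; positivity
      · change w 2 ≠ 0
        rw [hw2]; positivity
    have hwr : w ∈ Metric.sphere (0 : E 3) r := by
      rw [mem_sphere_zero_iff_norm]
      have h1 := norm_sq_eq w 0
      have e1 : (0 : Fin 3) + 1 = 1 := rfl
      have e2 : (0 : Fin 3) + 2 = 2 := rfl
      rw [e1, e2, hw0, hw1, hw2] at h1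
      have : ‖w‖ ^ 2 = r ^ 2 := by rw [h1]; ring
      exact (pow_left_inj₀ (norm_nonneg _) hr.le two_ne_zero).1 this
    have hf : FullDim (Q (G 3) w) := (fullDim_iff w).2 hwn
    have hww : w ∈ orb (G 3) w := mem_orb.2 fun i => Or.inl rfl
    refine ⟨w, hwr, hf, fun w' hw' => (hconst w hwr hf w' hw').ge, w, hww, flip 0 w,
      flip_mem 0 hww, w, hww, flip 2 w, flip_mem 2 hww, isEdge_flip hwn hww 0,
      isEdge_flip hwn hww 2, ?_⟩
    have hd : ∀ i : Fin 3, dist w (flip i w) ^ 2 = 4 * (w i) ^ 2 := by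
      intro i
      rw [dist_eq_norm, norm_sq_eq _ i]
      simp only [PiLp.sub_apply]
      rw [flip_same, flip_ne (ne_one i), flip_ne (ne_two i)]
      ring
    intro h
    have h0 := hd 0
    have h2 := hd 2
    rw [h, h2, hw0, hw2] at h0
    nlinarith [mul_pos hr hr]

end Pool.Agent.Results.MP_427d8c_co.BoxCounterexample
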